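import Pool.Agent.Helper42.SLC.Goals
import Pool.Agent.Helper12.SL.GA1
import Pool.Agent.Helper8.SL.GA2
import Pool.Agent.Helper26.SL.GA3
import Pool.Agent.Helper42.SL.GA4
import Pool.Agent.Helper45.SL.GA5

/-!
# Packet SLC FR1: failure for `H/K`, on the level of `H`
-/

namespace Pool.Agent.Helper42.SLC

open Pool.Agent.Helper17.SL
open Pool.Agent.Helper51.SigLeo Pool.Agent.Helper51.SixExp NumberField Module TensorProduct

universe u v w x

namespace PkFR1

/-- FR1 from the Galois packets. -/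
theorem fr1_of (h1 : S_GA1.{w, x, v}) (h2 : S_GA2.{u, v}) (h4 : S_GA4.{u, v, w})
    (h5 : S_GA5.{x, u, v, w}) : S_FR1.{u, v, w, x} := by
  intro K _ _ _ H _ _ _ _ _ Ω _ _ _ p _ k _ _ _ _ ιinf ιp S χ Λ τ₁ τ₂ hK4 hS hχ hfail hτ₁ hτ₂ hne
  classical
  have hchar : CharZero k := charZero_of_padic p (k := k)
  have hfd : FiniteDimensional K H := FiniteDimensional.right ℚ K H
  -- the places of `K` below `τ₁`, `τ₂` are different
  have hplace : InfinitePlace.mk ((ιinf.comp τ₁).comp (algebraMap K H)) ≠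
      InfinitePlace.mk ((ιinf.comp τ₂).comp (algebraMap K H)) := by
    intro h
    rcases InfinitePlace.mk_eq_iff.mp h with h1 | h1
    · apply hne
      ext y
      apply ιinf.injective
      exact RingHom.congr_fun h1 y
    · have h2 : ComplexEmbedding.conjugate (ιinf.comp (τ₁.comp (algebraMap K H))) ∈ S := by
        have h3 : ComplexEmbedding.conjugate (ιinf.comp (τ₁.comp (algebraMap K H))) =
            ιinf.comp (τ₂.comp (algebraMap K H)) := h1
        rw [h3]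
        exact hτ₂
      exact (hS _).mp hτ₁ h2
  -- the field of values
  obtain ⟨E, hE, χ', hχ'⟩ := h1 Ω k ιp (H ≃ₐ[K] H) χ
  set lam : E →+* Ω := algebraMap E Ω with hlam
  have hj : ∀ g, (ιp.comp lam) ((χ' g : Eˣ) : E) = χ g := fun g ↦ hχ' g
  set ε : E →+* ℂ := ιinf.comp lam with hε
  have hχ1 : (Units.map (ε : E →* ℂ)).comp χ' ≠ 1 := by
    intro h
    apply hχ
    ext g
    rw [← hj]
    have h3 : ((χ' g : Eˣ) : E) = 1 := by
      apply ε.injective
      have := congrArg (fun z : ℂˣ ↦ (z : ℂ)) (DFunLike.congr_fun h g)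
      simpa using this
    rw [h3]
    simp
  -- the archimedean determinant
  have hArch : ∀ (u : Additive (𝓞 H)ˣ) (ρ : H →+* ℂ), Phi ε (archLog ρ) (tchi χ' u) =
      ∑ g, (((Units.map (ε : E →* ℂ)).comp χ' g⁻¹ : ℂˣ) : ℂ) * archLog ρ (unitsHom g u) := by
    intro u ρ
    rw [Phi_tchi]
    rfl
  obtain ⟨u₁, u₂, hdet⟩ := h2 K H ((Units.map (ε : E →* ℂ)).comp χ') (ιinf.comp τ₁)
    (ιinf.comp τ₂) hχ1 hplace
  simp only [← hArch] at hdet
  have hstr := h4 K H E ε χ' (ιinf.comp τ₁) (ιinf.comp τ₂) u₁ u₂ hK4 hplace hdet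
  set j : E →+* k := ιp.comp lam with hjdef
  have hd := h5 k K H E j χ χ' (logSigma ιinf ιp S Λ) u₁ u₂ hj hstr hfail
    (logUnits Λ (ιp.comp τ₁)) ⟨τ₁, hτ₁, rfl⟩ (logUnits Λ (ιp.comp τ₂)) ⟨τ₂, hτ₂, rfl⟩
  intro u w
  rw [← Phi_eq_tw j χ' χ hj, ← Phi_eq_tw j χ' χ hj, ← Phi_eq_tw j χ' χ hj,
    ← Phi_eq_tw j χ' χ hj]
  obtain ⟨a, b, hab⟩ := hstr u
  obtain ⟨c, d, hcd⟩ := hstr w
  rw [hab, hcd]
  simp only [map_add, Phi_smul, smul_eq_mul]
  linear_combination (j a * j d - j b * j c) * hd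

/-- The packet. -/
theorem fr1 : S_FR1.{u, v, w, x} :=
  fr1_of PkGA1.thm PkGA2.thm (PkGA4.thm PkGA3.thm) PkGA5.thm

end PkFR1

end Pool.Agent.Helper42.SLC
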